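import Mathlib

set_option autoImplicit false

namespace Pool.Agent.Results.MP_667be6_lc.FailsSingular

open Cardinal Set

section
variable {W : Type} [LinearOrder W]

/-- Elements of `κ^{<κ}`, where `W` is the well-order of `κ`. -/
def Node (W : Type) [LinearOrder W] : Type := Σ α : W, Iio α → W

/-- initial segment -/
def Le (s t : Node W) : Prop := ∃ h : s.1 ≤ t.1, ∀ ξ : Iio s.1, s.2 ξ = t.2 ⟨ξ, ξ.2.trans_le h⟩

/-- regular `κ`-trees -/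
structure Regular (κ : Cardinal.{0}) (T : Set (Node W)) : Prop where
  low : ∀ s t, Le s t → t ∈ T → s ∈ T
  ne : ∀ α, ∃ t ∈ T, t.1 = α
  small : ∀ α, #{t | t ∈ T ∧ t.1 = α} < κ
  br : ∀ b, Maximal (fun b => b ⊆ T ∧ IsChain Le b) b → ∀ α, ∃ t ∈ b, t.1 = α
  perf : ∀ t ∈ T, ∃ u ∈ T, ∃ v ∈ T, Le t u ∧ Le t v ∧ ¬ Le u v ∧ ¬ Le v u

/-- `T'` is a strong subtree of `T` witnessed by `A` -/
def Strong (κ : Cardinal.{0}) (T : Set (Node W)) (A : Set W) (T' : Set (Node W)) : Prop :=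
  Regular κ T' ∧ T' ⊆ T ∧ ∀ t ∈ T', (t.1 ∈ A → ∀ u ∈ T, Le t u → t.1 ⋖ u.1 → u ∈ T') ∧
    (t.1 ∉ A → ∃! u, u ∈ T' ∧ Le t u ∧ t.1 ⋖ u.1)

end

/-- The Halpern-Läuchli property `HL(d, σ, κ)`. -/
def HL (d : ℕ) (σ κ : Cardinal.{0}) : Prop :=
  ∀ T : Fin d → Set (Node κ.ord.ToType), (∀ i, Regular κ (T i)) →
    ∀ c : (Fin d → Node κ.ord.ToType) → σ.out, ∃ A, IsCofinal A ∧
      ∃ T' : Fin d → Set (Node κ.ord.ToType), (∀ i, Strong κ (T i) A (T' i)) ∧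
        ∃ k, ∀ α ∈ A, ∀ x, (∀ i, x i ∈ T' i ∧ (x i).1 = α) → c x = k

theorem reg {W : Type} [LinearOrder W] [NoMaxOrder W] {κ : Cardinal.{0}} (hκ : ℵ₀ ≤ κ) {o i : W}
    (oi : o ≠ i) {S : Set W} (h1 : IsCofinal S) (h2 : ∀ α, (S ∩ Iio α).Finite) :
    Regular κ {t : Node W | ∀ ξ, t.2 ξ = o ∨ t.2 ξ = i ∧ ξ.1 ∈ S} := by
  classical
  refine ⟨fun s t ⟨h, k⟩ ht ξ => (k ξ).symm ▸ ht ⟨ξ, ξ.2.trans_le h⟩,
    fun α => ⟨⟨α, fun _ => o⟩, fun _ => Or.inl rfl, rfl⟩, fun α => (Finite.lt_aleph0 ?_).trans_le hκ,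
    fun b hb α => ?_, fun t ht => ?_⟩
  · refine ((h2 α).finite_subsets.image fun B : Set W =>
      (⟨α, fun ξ => if ξ.1 ∈ B then i else o⟩ : Node W)).subset ?_
    rintro ⟨_, f⟩ ⟨ht, rfl⟩
    refine ⟨{ξ | ∃ h, f ⟨ξ, h⟩ = i}, fun ξ ⟨h, k⟩ => ⟨((ht ⟨ξ, h⟩).resolve_left
      fun l => oi (l.symm.trans k)).2, h⟩, congrArg (Sigma.mk _) (funext fun ξ => ?_)⟩
    split_ifs with k
    · exact k.2.symm
    · exact ((ht ξ).resolve_right fun l => k ⟨ξ.2, l.1⟩).symm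
  · let g : W → W := fun ξ => if ∃ t ∈ b, ∃ h, t.2 ⟨ξ, h⟩ = i then i else o
    have g1 : ∀ t ∈ b, ∀ ξ : Iio t.1, g ξ = t.2 ξ := fun t ht ξ => by
      simp only [g]
      split_ifs with k
      · obtain ⟨s, s1, s2, s3⟩ := k
        rcases eq_or_ne s t with rfl | l
        · exact s3.symm
        · rcases hb.prop.2 s1 ht l with ⟨_, m⟩ | ⟨_, m⟩
          exacts [s3.symm.trans (m ⟨ξ, s2⟩), s3.symm.trans (m ξ).symm]
      · exact ((hb.prop.1 ht ξ).resolve_right fun l => k ⟨t, ht, ξ.2, l.1⟩).symm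
    refine ⟨⟨α, fun ξ => g ξ⟩, hb.mem_of_prop_insert ⟨insert_subset (fun ξ => ?_) hb.prop.1,
      hb.prop.2.insert fun t ht _ => (le_total α t.1).imp
        (fun h => ⟨h, fun ξ => g1 t ht ⟨ξ, ξ.2.trans_le h⟩⟩) fun h => ⟨h, fun ξ => (g1 t ht ξ).symm⟩⟩,
      rfl⟩
    simp only [g]
    split_ifs with k
    · obtain ⟨s, s1, s2, s3⟩ := k
      exact Or.inr ⟨rfl, ((hb.prop.1 s1 ⟨ξ, s2⟩).resolve_left fun l => oi (l.symm.trans s3)).2⟩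
    · exact Or.inl rfl
  · obtain ⟨s, s1, s2⟩ := h1 t.1
    obtain ⟨β, hβ⟩ := exists_gt s
    have e : ∀ j : W, (j = o ∨ j = i) → (⟨β, fun ξ => if h : ξ.1 < t.1 then t.2 ⟨ξ, h⟩ else
        if ξ.1 = s then j else o⟩ : Node W) ∈ {t : Node W | ∀ ξ, t.2 ξ = o ∨ t.2 ξ = i ∧ ξ.1 ∈ S} :=
      fun j hj ξ => by
        dsimp only
        split_ifs with k l
        exacts [ht ⟨ξ, k⟩, hj.imp_right fun m => ⟨m, l ▸ s1⟩, Or.inl rfl]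
    refine ⟨_, e o (Or.inl rfl), _, e i (Or.inr rfl), ⟨s2.trans hβ.le, fun ξ => by
      simp [show ξ.1 < t.1 from ξ.2]⟩, ⟨s2.trans hβ.le, fun ξ => by
      simp [show ξ.1 < t.1 from ξ.2]⟩, fun ⟨_, k⟩ => oi ?_, fun ⟨_, k⟩ => oi.symm ?_⟩ <;>
    simpa [s2.not_gt] using k ⟨s, hβ⟩

theorem fails (κ σ : Cardinal.{0}) (h0 : ℵ₀ ≤ κ) (hc : κ.ord.cof ≤ σ) (d : ℕ)
    {T : Set (Node κ.ord.ToType)} (hT : Regular κ T) : ¬ HL (d + 1) σ κ := fun h => by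
  have := Cardinal.noMaxOrder h0
  obtain ⟨S, s1, s2⟩ := Order.exists_cof_eq κ.ord.ToType
  rw [Ordinal.cof_toType] at s2
  obtain ⟨e⟩ := (Cardinal.le_def S σ.out).1 ((s2.trans_le hc).trans_eq (mk_out σ).symm)
  choose f f1 f2 using s1
  obtain ⟨A, a1, T, a2, k, a3⟩ := h _ (fun _ => hT) fun x => e ⟨f (x 0).1, f1 _⟩
  have a4 : ∀ α ∈ A, e ⟨f α, f1 _⟩ = k := fun α b => by
    choose x x1 x2 using fun i => (a2 i).1.ne α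
    exact x2 0 ▸ a3 α b x fun i => ⟨x1 i, x2 i⟩
  obtain ⟨o⟩ : Nonempty κ.ord.ToType := mk_ne_zero_iff.1 (by
    rw [mk_ord_toType]; exact (aleph0_pos.trans_le h0).ne')
  obtain ⟨α, b1, -⟩ := a1 o
  obtain ⟨β, b2⟩ := exists_gt (f α)
  obtain ⟨γ, b3, b4⟩ := a1 β
  exact (b2.trans_le b4).not_ge ((f2 γ).trans_eq
    (congrArg Subtype.val (e.injective ((a4 γ b3).trans (a4 α b1).symm))))

theorem ex (κ : Cardinal.{0}) (h0 : ℵ₀ ≤ κ) (hc : κ.ord.cof = ℵ₀) :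
    ∃ T : Set (Node κ.ord.ToType), Regular κ T := by
  have := Cardinal.noMaxOrder h0
  obtain ⟨S, s1, s2⟩ := Order.exists_cof_eq κ.ord.ToType
  rw [Ordinal.cof_toType, hc] at s2
  obtain ⟨μ, rfl⟩ := (le_aleph0_iff_set_countable.1 s2.le).exists_eq_range
    (nonempty_coe_sort.1 (mk_ne_zero_iff.1 (s2 ▸ aleph0_ne_zero)))
  obtain ⟨i, hi⟩ := exists_gt (μ 0)
  have ex : ∀ α, ∃ n, α ≤ μ n := fun α => let ⟨_, ⟨n, k⟩, l⟩ := s1 α; ⟨n, k ▸ l⟩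
  refine ⟨_, reg h0 hi.ne (S := range (partialSups μ))
    (fun α => let ⟨n, k⟩ := ex α; ⟨_, ⟨n, rfl⟩, k.trans (le_partialSups μ n)⟩) fun α => ?_⟩
  obtain ⟨n, k⟩ := ex α
  refine ((finite_lt_nat n).image (partialSups μ)).subset ?_
  rintro _ ⟨⟨m, rfl⟩, l⟩
  exact ⟨m, not_le.1 fun a => l.not_ge (k.trans (le_partialSups_of_le μ a)), rfl⟩

theorem result :
    (∀ κ σ : Cardinal.{0}, ℵ₀ < κ → κ.ord.cof ≤ σ → (∃ T : Set (Node κ.ord.ToType), Regular κ T) →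
      ∀ d, 1 ≤ d → ¬ HL d σ κ) ∧
    (∀ κ : Cardinal.{0}, ℵ₀ < κ → κ.ord.cof = ℵ₀ → ∃ T : Set (Node κ.ord.ToType), Regular κ T) ∧
      ¬ ∀ κ σ : Cardinal.{0}, ∀ d, ℵ₀ < κ → 1 ≤ d → 0 < σ → σ < κ → HL d σ κ :=
  ⟨fun κ σ h0 hc ⟨_, hT⟩ d hd => by
    obtain ⟨d, rfl⟩ := Nat.exists_eq_add_of_le' hd
    exact fails κ σ h0.le hc d hT, fun κ h => ex κ h.le, fun h => by
    have k : ℵ₀ < ℵ_ Ordinal.omega0.{0} := by
      rw [← aleph_zero]; exact aleph_lt_aleph.2 Ordinal.omega0_pos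
    have c : (ℵ_ Ordinal.omega0.{0}).ord.cof = ℵ₀ := by
      rw [ord_aleph, Ordinal.cof_omega Ordinal.isSuccLimit_omega0, Ordinal.cof_omega0]
    obtain ⟨T, hT⟩ := ex _ k.le c
    exact fails _ _ k.le c.le 0 hT (h _ _ _ k le_rfl aleph0_pos k)⟩

end Pool.Agent.Results.MP_667be6_lc.FailsSingular
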